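import Pool.Agent.W2helper44.PT.Stm
import Pool.Agent.R401.Burn

/-!
# Project PT, piece BN
-/

set_option autoImplicit false

namespace Pool.Agent.W2helper92.PT

open Pool.Agent.W2helper44.PT Module

theorem p_bn : P_BN := by
  intro k _ _ A _ _ V N _ _ _ _ _ _ _ _ _ _ hss htr L hL x hx
  by_contra hx0
  -- the elements of the algebra which kill `N` are nilpotent on `V`
  have hJ : ∀ a : A, (∀ n : N, a • n = 0) → IsNilpotent (Algebra.lsmul k k V a) := by
    intro a ha
    apply Pool.Agent.R401.Burn.isNilpotent_of_trace_pow (k := k) (V := V)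
      (fun m h1 _ => Nat.cast_ne_zero.2 h1.ne')
    intro r
    rw [← map_pow, htr, map_pow]
    have h0 : Algebra.lsmul k k N a = 0 := LinearMap.ext ha
    rw [h0, zero_pow (Nat.succ_ne_zero r), map_zero]
  -- a simple quotient of the cyclic submodule
  let C : Submodule A V := Submodule.span A {x}
  have hxC : x ∈ C := Submodule.subset_span rfl
  let x' : C := ⟨x, hxC⟩
  have hx'0 : x' ≠ 0 := fun h => hx0 (congrArg Subtype.val h)
  have : Module.Finite A C := Module.Finite.iff_fg.2 (Submodule.fg_span_singleton x)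
  have hbt : (⊥ : Submodule A C) ≠ ⊤ := by
    intro h
    have h1 : x' ∈ (⊥ : Submodule A C) := by rw [h]; exact Submodule.mem_top
    exact hx'0 ((Submodule.mem_bot A).1 h1)
  obtain ⟨C', hC', -⟩ := (eq_top_or_exists_le_coatom (⊥ : Submodule A C)).resolve_left hbt
  have : IsSimpleModule A (C ⧸ C') := isSimpleModule_iff_isCoatom.2 hC'
  have hxb : (Submodule.Quotient.mk x' : C ⧸ C') ≠ 0 := by
    intro h
    rw [Submodule.Quotient.mk_eq_zero] at h
    apply hC'.1
    rw [eq_top_iff]
    rintro ⟨c, hc⟩ -
    obtain ⟨a, rfl⟩ := Submodule.mem_span_singleton.1 hc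
    exact C'.smul_mem a h
  have hLx : ∀ a ∈ L, a • (Submodule.Quotient.mk x' : C ⧸ C') = 0 := by
    intro a ha
    rw [← Submodule.Quotient.mk_smul]
    have h1 : a • x' = 0 := Subtype.ext (hx a ha)
    rw [h1, Submodule.Quotient.mk_zero]
  generalize hxbd : (Submodule.Quotient.mk x' : C ⧸ C') = xb at hxb hLx
  -- these elements kill the simple quotient
  have hJQ : ∀ a : A, (∀ n : N, a • n = 0) → ∀ q : C ⧸ C', a • q = 0 := by
    intro a ha q
    by_contra h
    have hS : Submodule.map (LinearMap.toSpanSingleton A (C ⧸ C') q) (Module.annihilator A N) ≠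
        ⊥ := by
      intro h1
      apply h
      rw [← Submodule.mem_bot A, ← h1]
      exact ⟨a, Module.mem_annihilator.2 ha, rfl⟩
    have hT := (eq_bot_or_eq_top _).resolve_left hS
    have hq : q ∈ Submodule.map (LinearMap.toSpanSingleton A (C ⧸ C') q)
        (Module.annihilator A N) := by
      rw [hT]
      exact Submodule.mem_top
    obtain ⟨b, hb, hbq⟩ := hq
    have hbq' : b • q = q := hbq
    obtain ⟨m, hm⟩ := hJ b (Module.mem_annihilator.1 hb)
    have h1 : ∀ m : ℕ, b ^ m • q = q := by
      intro m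
      induction m with
      | zero => rw [pow_zero, one_smul]
      | succ m ih => rw [pow_succ, mul_smul, hbq', ih]
    have h2 : b ^ m • q = 0 := by
      obtain ⟨c, rfl⟩ := Submodule.Quotient.mk_surjective C' q
      rw [← Submodule.Quotient.mk_smul]
      have h3 : b ^ m • c = 0 := by
        apply Subtype.ext
        have h4 := LinearMap.congr_fun hm (c : V)
        rw [← map_pow] at h4
        exact h4
      rw [h3, Submodule.Quotient.mk_zero]
    rw [h1] at h2
    exact h (by rw [h2, smul_zero])
  -- the basis of `N`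
  let bN := Module.finBasis k N
  let e : Fin (finrank k N) →₀ N := Finsupp.equivFunOnFinite.symm bN
  have he : ∀ i, e i = bN i := fun i => rfl
  have hker : ∀ a : A, a • e = 0 → ∀ n : N, a • n = 0 := by
    intro a ha n
    have h1 : Algebra.lsmul k k N a = 0 := by
      apply bN.ext
      intro i
      have := DFunLike.congr_fun ha i
      exact this
    exact LinearMap.congr_fun h1 n
  obtain ⟨K1, hK⟩ := exists_isCompl (Submodule.map
    (LinearMap.toSpanSingleton A (Fin (finrank k N) →₀ N) e)
    (LinearMap.ker (LinearMap.toSpanSingleton A (C ⧸ C') xb)))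
  have hetop : e ∈ (⊤ : Submodule A (Fin (finrank k N) →₀ N)) := Submodule.mem_top
  rw [← hK.sup_eq_top, Submodule.mem_sup] at hetop
  obtain ⟨u, ⟨b, hb, rfl⟩, v, hv, huv⟩ := hetop
  have hb' : b • xb = 0 := LinearMap.mem_ker.1 hb
  have huv' : v = (1 - b) • e := by
    rw [sub_smul, one_smul]
    exact eq_sub_of_add_eq' huv
  have hv0 : v ≠ 0 := by
    intro h
    have h1 := hJQ (1 - b) (hker (1 - b) (by rw [← huv', h])) xb
    rw [sub_smul, one_smul, hb', sub_zero] at h1
    exact hxb h1
  have hLv : ∀ a ∈ L, a • v = 0 := by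
    intro a ha
    have h1 : a • v ∈ K1 := K1.smul_mem a hv
    have h2 : a • v ∈ Submodule.map (LinearMap.toSpanSingleton A (Fin (finrank k N) →₀ N) e)
        (LinearMap.ker (LinearMap.toSpanSingleton A (C ⧸ C') xb)) := by
      refine ⟨a * (1 - b), ?_, ?_⟩
      · rw [SetLike.mem_coe, LinearMap.mem_ker, LinearMap.toSpanSingleton_apply, mul_smul,
          sub_smul, one_smul, hb', sub_zero, hLx a ha]
      · rw [LinearMap.toSpanSingleton_apply, mul_smul, huv']
    have h3 := hK.disjoint.le_bot ⟨h2, h1⟩
    exact (Submodule.mem_bot A).1 h3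
  apply hv0
  ext i
  rw [Finsupp.zero_apply]
  apply hL
  intro a ha
  rw [← Finsupp.smul_apply, hLv a ha, Finsupp.zero_apply]

end Pool.Agent.W2helper92.PT
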